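import Pool.Agent.NH10.FH.Fin

/-!
# The variance of the primes in intervals of fixed length, on logarithmic average

`ψ(x; H)` is the sum of `Λ(n)` over `x - H/2 ≤ n ≤ x + H/2`, and Q1 asks for its mean square error,
`~ H log (X / H)`.  The following are equivalent, with no hypothesis: the Riemann hypothesis together
with Montgomery's pair correlation asymptotic; the asymptotic formula of Q1 on logarithmic average
over `X`, with `H = X / T` and `T^a ≤ X ≤ T^b`; its upper half alone; the same for the mean square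
over `[cX, X]`, for every `c`; and the upper half of this, for a single `c`.
-/

open Filter Topology MeasureTheory

namespace Pool.Agent.Results.MP_2a816b_nt.LogAverageVariance

/-- multiplicity of `s` as a zero of the Riemann zeta function (order of vanishing at `s`) -/
noncomputable def zmult (s : ℂ) : ℕ := analyticOrderNatAt riemannZeta s

/-- the nontrivial zeros of `ζ` -/
def ZZ : Set ℂ := {s : ℂ | riemannZeta s = 0 ∧ 0 < s.re ∧ s.re < 1}

/-- the number of ordered pairs `(γ, γ')` of ordinates of nontrivial zeros, counted with multiplicity,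
with `0 < γ ≤ T` and `0 < γ - γ' ≤ 2πa / log T` -/
noncomputable def Nstar (T a : ℝ) : ℕ :=
  ∑ᶠ p ∈ {p : ℂ × ℂ | p.1 ∈ ZZ ∧ p.2 ∈ ZZ ∧ 0 < p.1.im ∧ p.1.im ≤ T ∧
    0 < p.1.im - p.2.im ∧ p.1.im - p.2.im ≤ 2 * Real.pi * a / Real.log T}, zmult p.1 * zmult p.2

/-- Montgomery's pair correlation asymptotic -/
def PairCorrelation : Prop := ∀ a : ℝ, 0 < a →
  Tendsto (fun T : ℝ => (Nstar T a : ℝ) / (T * Real.log T)) atTop
    (𝓝 (1 / (2 * Real.pi) *
      ∫ u in (0 : ℝ)..a, (1 - (Real.sin (Real.pi * u) / (Real.pi * u)) ^ 2)))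

/-- `ψ(x; H)` of the problem -/
noncomputable def psi (x H : ℝ) : ℝ :=
  ∑ᶠ n ∈ {n : ℕ | 1 ≤ n ∧ x - H / 2 ≤ n ∧ (n : ℝ) ≤ x + H / 2}, ArithmeticFunction.vonMangoldt n

/-- the mean square of `ψ(x; H) - H` over `H ≤ x ≤ X` -/
noncomputable def V (X H : ℝ) : ℝ := 1 / X * ∫ x in H..X, (psi x H - H) ^ 2

/-- the mean square of `ψ(x; H) - H` over `cX ≤ x ≤ X` -/
noncomputable def Vloc (c X H : ℝ) : ℝ :=
  1 / ((1 - c) * X) * ∫ x in (c * X)..X, (psi x H - H) ^ 2

/-- the logarithmic average of the ratio `F(X, H) / (H log (X / H))`, `H = X / T`, over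
`T^a ≤ X ≤ T^b` -/
noncomputable def LogAv (F : ℝ → ℝ → ℝ) (T a b : ℝ) : ℝ :=
  1 / ((b - a) * Real.log T) *
    ∫ X in (T ^ a)..(T ^ b), F X (X / T) / (X / T * Real.log (X / (X / T))) / X

lemma pair_iff : PairCorrelation ↔ ∀ y : ℝ, 0 < y →
    Tendsto (fun T => (Pool.Agent.NH11.PV.Nstar T y : ℝ) / Pool.Agent.Y744.Xf T) atTop
      (𝓝 (Pool.Agent.Y744.gp y)) := by
  have hpi := Real.pi_pos
  refine forall_congr' fun y => forall_congr' fun hy => ?_
  have e1 : ∫ u in (0 : ℝ)..y, (1 - (Real.sin (Real.pi * u) / (Real.pi * u)) ^ 2) =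
      Pool.Agent.Y744.gp y := by
    have h := Pool.Agent.Y744.G.P_eq 0 y
    unfold Pool.Agent.Y744.G.P Pool.Agent.Y744.pr at h
    rw [if_pos ⟨le_rfl, hy.le⟩, Set.indicator_of_mem (show (0 : ℝ) ∈ Set.Icc 0 y from
      ⟨le_rfl, hy.le⟩), Pool.Agent.Y744.gp_zero, sub_zero] at h
    linarith
  have e2 : ∀ T : ℝ, (Nstar T y : ℝ) / (T * Real.log T) = 1 / (2 * Real.pi) *
      ((Pool.Agent.NH11.PV.Nstar T y : ℝ) / Pool.Agent.Y744.Xf T) := by
    intro T
    show (Nstar T y : ℝ) / (T * Real.log T) =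
      1 / (2 * Real.pi) * ((Nstar T y : ℝ) / (T * Real.log T / (2 * Real.pi)))
    rw [div_div_eq_mul_div, ← mul_div_assoc]
    congr 1
    field_simp
  simp_rw [e2]
  rw [e1]
  constructor
  · intro h
    have h2 := h.const_mul (2 * Real.pi)
    have e3 : 2 * Real.pi * (1 / (2 * Real.pi) * Pool.Agent.Y744.gp y) =
        Pool.Agent.Y744.gp y := by field_simp
    rw [e3] at h2
    refine h2.congr fun T => ?_
    rw [← mul_assoc]
    have : 2 * Real.pi * (1 / (2 * Real.pi)) = 1 := by field_simp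
    rw [this, one_mul]
  · intro h
    exact h.const_mul _

lemma log_av (F : ℝ → ℝ → ℝ) {T a b : ℝ} (hT : 1 < T) (hab : a < b) : LogAv F T a b =
    1 / Real.log T ^ 2 * (∫ X in (T ^ a)..(T ^ b), F X (X / T) / (X / T) / X) / (b - a) := by
  have hT0 : 0 < T := by linarith
  have hL := Real.log_pos hT
  have hba : 0 < b - a := by linarith
  have hA : 0 < T ^ a := Real.rpow_pos_of_pos hT0 _
  have hAB : T ^ a ≤ T ^ b := Real.rpow_le_rpow_of_exponent_le hT.le hab.le
  unfold LogAv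
  have h1 : ∫ X in (T ^ a)..(T ^ b), F X (X / T) / (X / T * Real.log (X / (X / T))) / X =
      ∫ X in (T ^ a)..(T ^ b), (Real.log T)⁻¹ * (F X (X / T) / (X / T) / X) := by
    refine intervalIntegral.integral_congr fun X hX => ?_
    rw [Set.uIcc_of_le hAB] at hX
    have hX0 : 0 < X := hA.trans_le hX.1
    have e : X / (X / T) = T := by field_simp
    show F X (X / T) / (X / T * Real.log (X / (X / T))) / X =
      (Real.log T)⁻¹ * (F X (X / T) / (X / T) / X)
    rw [e]
    field_simp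
  rw [h1, intervalIntegral.integral_const_mul]
  field_simp

lemma V_eq {T a b : ℝ} (hT : 1 < T) (hab : a < b) :
    LogAv V T a b = Pool.Agent.NH13.LV.Kc T a b / (b - a) := by
  rw [log_av V hT hab]
  rfl

lemma Vloc_eq {c T a b : ℝ} (hT : 1 < T) (hab : a < b) :
    LogAv (Vloc c) T a b = Pool.Agent.NH10.FH.W c T a b / (b - a) := by
  rw [log_av _ hT hab]
  have hL := Real.log_pos hT
  congr 1
  unfold Pool.Agent.NH10.FH.W
  have h1 : ∀ X : ℝ, Pool.Agent.NH10.FH.VH c X (X / T) / (X / T * Real.log T) / X =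
      (Real.log T)⁻¹ * (Vloc c X (X / T) / (X / T) / X) := by
    intro X
    have e : Vloc c X (X / T) = Pool.Agent.NH10.FH.VH c X (X / T) := by
      unfold Vloc Pool.Agent.NH10.FH.VH
      congr 1
      refine intervalIntegral.integral_congr fun x _ => ?_
      show (psi x (X / T) - X / T) ^ 2 = (Pool.Agent.NH10.FH.psiW x (X / T) - X / T) ^ 2
      rw [← Pool.Agent.NH10.FH.psi_eq]
      rfl
    rw [e]
    simp only [div_eq_mul_inv, mul_inv]
    ring
  simp_rw [h1]
  rw [intervalIntegral.integral_const_mul]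
  field_simp

/-- convergence of the averages -/
lemma lim_iff {K A : ℝ → ℝ} {a b : ℝ} (hab : a < b) (h : ∀ T : ℝ, 1 < T → A T = K T / (b - a)) :
    Tendsto A atTop (𝓝 1) ↔ Tendsto K atTop (𝓝 (b - a)) := by
  have hba : b - a ≠ 0 := by
    have : 0 < b - a := by linarith
    exact this.ne'
  constructor
  · intro h1
    have h2 := h1.const_mul (b - a)
    rw [mul_one] at h2
    refine h2.congr' ?_
    filter_upwards [eventually_gt_atTop 1] with T hT
    rw [h T hT, mul_div_cancel₀ _ hba]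
  · intro h1
    have h2 := h1.div_const (b - a)
    rw [div_self hba] at h2
    refine h2.congr' ?_
    filter_upwards [eventually_gt_atTop 1] with T hT
    exact (h T hT).symm

/-- upper bounds for the averages -/
lemma up_iff {K A : ℝ → ℝ} {a b : ℝ} (hab : a < b) (h : ∀ T : ℝ, 1 < T → A T = K T / (b - a)) :
    (∀ ε : ℝ, 0 < ε → ∀ᶠ T in atTop, A T ≤ 1 + ε) ↔
      ∀ ε : ℝ, 0 < ε → ∀ᶠ T in atTop, K T ≤ b - a + ε := by
  have hba : 0 < b - a := by linarith
  constructor
  · intro h1 ε hε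
    filter_upwards [h1 (ε / (b - a)) (by positivity), eventually_gt_atTop 1] with T h2 hT
    rw [h T hT, div_le_iff₀ hba, add_mul, one_mul, div_mul_cancel₀ _ hba.ne'] at h2
    exact h2
  · intro h1 ε hε
    filter_upwards [h1 (ε * (b - a)) (by positivity), eventually_gt_atTop 1] with T h2 hT
    rw [h T hT, div_le_iff₀ hba, add_mul, one_mul]
    exact h2

/-- **The variance of the primes in short intervals on logarithmic average.**  The following are
equivalent: the Riemann hypothesis and the pair correlation asymptotic; the asymptotic formula for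
the mean square over `[H, X]` on logarithmic average; the upper half of this; the asymptotic formula
for the mean square over `[cX, X]` on logarithmic average, for every `0 < c < 1`; its upper half, for
some `0 < c < 1`. -/
theorem result : List.TFAE [
    RiemannHypothesis ∧ PairCorrelation,
    ∀ a b : ℝ, 1 ≤ a → a < b → Tendsto (fun T => LogAv V T a b) atTop (𝓝 1),
    ∀ a b : ℝ, 1 ≤ a → a < b → ∀ ε : ℝ, 0 < ε → ∀ᶠ T in atTop, LogAv V T a b ≤ 1 + ε,
    ∀ c : ℝ, 0 < c → c < 1 → ∀ a b : ℝ, 1 ≤ a → a < b →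
      Tendsto (fun T => LogAv (Vloc c) T a b) atTop (𝓝 1),
    ∃ c : ℝ, 0 < c ∧ c < 1 ∧ ∀ a b : ℝ, 1 ≤ a → a < b → ∀ ε : ℝ, 0 < ε →
      ∀ᶠ T in atTop, LogAv (Vloc c) T a b ≤ 1 + ε] := by
  have h := Pool.Agent.NH10.FH.main
  rw [← pair_iff] at h
  have e2 : (∀ a b : ℝ, 1 ≤ a → a < b → Tendsto (fun T => LogAv V T a b) atTop (𝓝 1)) ↔
      ∀ a b : ℝ, 1 ≤ a → a < b →
        Tendsto (fun T => Pool.Agent.NH13.LV.Kc T a b) atTop (𝓝 (b - a)) :=
    forall_congr' fun a => forall_congr' fun b => forall_congr' fun _ => forall_congr' fun hab =>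
      lim_iff hab fun T hT => V_eq hT hab
  have e3 : (∀ a b : ℝ, 1 ≤ a → a < b → ∀ ε : ℝ, 0 < ε → ∀ᶠ T in atTop,
        LogAv V T a b ≤ 1 + ε) ↔
      ∀ a b : ℝ, 1 ≤ a → a < b → ∀ ε : ℝ, 0 < ε → ∀ᶠ T in atTop,
        Pool.Agent.NH13.LV.Kc T a b ≤ b - a + ε :=
    forall_congr' fun a => forall_congr' fun b => forall_congr' fun _ => forall_congr' fun hab =>
      up_iff hab fun T hT => V_eq hT hab
  have e4 : (∀ c : ℝ, 0 < c → c < 1 → ∀ a b : ℝ, 1 ≤ a → a < b →
        Tendsto (fun T => LogAv (Vloc c) T a b) atTop (𝓝 1)) ↔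
      ∀ c : ℝ, 0 < c → c < 1 → ∀ a b : ℝ, 1 ≤ a → a < b →
        Tendsto (fun T => Pool.Agent.NH10.FH.W c T a b) atTop (𝓝 (b - a)) :=
    forall_congr' fun c => forall_congr' fun _ => forall_congr' fun _ => forall_congr' fun a =>
      forall_congr' fun b => forall_congr' fun _ => forall_congr' fun hab =>
        lim_iff hab fun T hT => Vloc_eq hT hab
  have e5 : (∃ c : ℝ, 0 < c ∧ c < 1 ∧ ∀ a b : ℝ, 1 ≤ a → a < b → ∀ ε : ℝ, 0 < ε →
        ∀ᶠ T in atTop, LogAv (Vloc c) T a b ≤ 1 + ε) ↔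
      ∃ c : ℝ, 0 < c ∧ c < 1 ∧ ∀ a b : ℝ, 1 ≤ a → a < b → ∀ ε : ℝ, 0 < ε →
        ∀ᶠ T in atTop, Pool.Agent.NH10.FH.W c T a b ≤ b - a + ε :=
    exists_congr fun c => and_congr_right fun _ => and_congr_right fun _ => forall_congr' fun a =>
      forall_congr' fun b => forall_congr' fun _ => forall_congr' fun hab =>
        up_iff hab fun T hT => Vloc_eq hT hab
  rw [e2, e3, e4, e5]
  exact h

end Pool.Agent.Results.MP_2a816b_nt.LogAverageVariance
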