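import Pool.Agent.NH18.SV.Fin
import Pool.Agent.NH18.SV.Var
import Pool.Agent.NH18.SV.Cent
import Pool.Agent.NH18.SV.Base

/-!
# Plateaus of the variance of primes in short intervals

Unconditionally, all the scales `H = 2 ^ j` between `log X` and `X` fall into `O(1 / δ)` plateaus such that for
`H ≤ H'` in one plateau the mean square of `ψ(x; H) / H - ψ(x; H') / H'` over `x ∈ [1, X]` is at most `δ`.

Proof: the energy of the primes at the scale `log X` is bounded (sieve upper bound for pairs of primes),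
the energy decreases when the scale is doubled, and the decrease between two scales controls the mean
square of the difference.
-/

namespace Pool.Agent.Results.MP_2a816b_nt.VariancePlateaus

open MeasureTheory

/-- `ψ(x; H)`: the sum of `Λ(n)` over the integers `n ≥ 1` with `x - H / 2 ≤ n ≤ x + H / 2`. -/
noncomputable def psi (x H : ℝ) : ℝ :=
  ∑ n ∈ (Finset.Icc 1 ⌊x + H / 2⌋₊).filter (fun n : ℕ => x - H / 2 ≤ n), ArithmeticFunction.vonMangoldt n

theorem psi_eq {x H : ℝ} (hH : 0 ≤ H) (hx : ∀ n : ℕ, x - H / 2 ≠ n) :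
    psi x H = Pool.Agent.NH18.SV.psiC x H := by
  rw [Pool.Agent.NH18.SV.psiC, Chebyshev.psi, Chebyshev.psi, psi, eq_sub_iff_add_eq]
  have h1 : Finset.Ioc 0 ⌊x + H / 2⌋₊ =
      (Finset.Icc 1 ⌊x + H / 2⌋₊).filter (fun n : ℕ => x - H / 2 ≤ n) ∪ Finset.Ioc 0 ⌊x - H / 2⌋₊ := by
    ext n
    simp only [Finset.mem_Ioc, Finset.mem_union, Finset.mem_filter, Finset.mem_Icc]
    constructor
    · rintro ⟨h2, h3⟩
      rcases le_total (x - H / 2) (n : ℝ) with h4 | h4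
      · exact Or.inl ⟨⟨h2, h3⟩, h4⟩
      · exact Or.inr ⟨h2, Nat.le_floor h4⟩
    · rintro (⟨⟨h2, h3⟩, -⟩ | ⟨h2, h3⟩)
      · exact ⟨h2, h3⟩
      · exact ⟨h2, h3.trans (Nat.floor_mono (by linarith))⟩
  rw [h1, Finset.sum_union]
  rw [Finset.disjoint_left]
  intro n h2 h3
  rw [Finset.mem_filter] at h2
  rw [Finset.mem_Ioc] at h3
  have h4 : (n : ℝ) ≤ x - H / 2 := by
    by_contra hc
    push Not at hc
    rcases le_or_gt 0 (x - H / 2) with h5 | h5
    · exact absurd ((Nat.floor_lt h5).2 hc) (not_lt.2 h3.2)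
    · rw [Nat.floor_of_nonpos h5.le] at h3
      omega
  exact hx n (le_antisymm h2.2 h4)

/-- **Plateaus of the variance of primes in short intervals.** There is an absolute constant `C` such
that for all `X ≥ 2` and `0 < δ ≤ 1` there is a set `B` of at most `C / δ` integers such that for all
`j ≤ j'` with `log X ≤ 2 ^ j` and `2 ^ j' ≤ X` and no element of `B` between `j` and `j'`
the mean square over `x ∈ [1, X]` of `ψ(x; 2 ^ j) / 2 ^ j - ψ(x; 2 ^ j') / 2 ^ j'` is at most `δ`. -/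
theorem result : ∃ C : ℝ, 0 < C ∧ ∀ X : ℝ, 2 ≤ X → ∀ δ : ℝ, 0 < δ → δ ≤ 1 → ∃ B : Finset ℕ,
    (B.card : ℝ) ≤ C / δ ∧ ∀ j j' : ℕ, j ≤ j' → Real.log X ≤ 2 ^ j → (2 : ℝ) ^ j' ≤ X →
      (∀ i, j ≤ i → i ≤ j' → i ∉ B) →
      (1 / X) * ∫ x in (1)..X, (psi x (2 ^ j) / 2 ^ j - psi x (2 ^ j') / 2 ^ j') ^ 2 ≤ δ := by
  obtain ⟨C, hC, h⟩ := Pool.Agent.NH18.SV.main Pool.Agent.NH18.SV.t_var
    (Pool.Agent.NH18.SV.t_cent Pool.Agent.NH18.SV.t_var) Pool.Agent.NH18.SV.t_psibase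
  refine ⟨C, hC, fun X hX δ hδ hδ1 => ?_⟩
  obtain ⟨B, hB, hB2⟩ := h X hX δ hδ hδ1
  refine ⟨B, hB, fun j j' hjj' h1 h2 h3 => ?_⟩
  have hae : ∀ k : ℕ, ∀ᵐ x : ℝ, psi x (2 ^ k) = Pool.Agent.NH18.SV.psiC x (2 ^ k) := by
    intro k
    have hc : (Set.range fun n : ℕ => (n : ℝ) + 2 ^ k / 2).Countable := Set.countable_range _
    filter_upwards [hc.ae_notMem volume] with x hx
    refine psi_eq (by positivity) fun n hn => hx ⟨n, ?_⟩
    simp only
    rw [← hn]; ring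
  have heq : ∫ x in (1)..X, (psi x (2 ^ j) / 2 ^ j - psi x (2 ^ j') / 2 ^ j') ^ 2 =
      ∫ x in (1)..X, (Pool.Agent.NH18.SV.psiC x (2 ^ j) / 2 ^ j -
        Pool.Agent.NH18.SV.psiC x (2 ^ j') / 2 ^ j') ^ 2 := by
    refine intervalIntegral.integral_congr_ae ?_
    filter_upwards [hae j, hae j'] with x hx hx' _
    rw [hx, hx']
  rw [heq]
  exact hB2 j j' hjj' h1 h2 h3

end Pool.Agent.Results.MP_2a816b_nt.VariancePlateaus
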