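import Mathlib
import Pool.Agent.NH16.Short3

set_option autoImplicit false

/-!
# Variances of the primes in short intervals are small if and only if the prime tuples conjecture holds on average

The question is about the variance of the primes in the intervals of length `H(N)`, `N ^ ε ≤ H(N) ≤ N ^ (1 - ε)`,
around the numbers up to `N`; it is not even known that it is `o(H(N) ^ 2)`.  For every `s ≥ 2` the variances of
the primes of the reduced residue classes to all fixed moduli in the intervals of length `H(N)` (and its multiples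
by constants `γ ≤ 1`) are of smaller order than their trivial bound and the mean squares of the exponential sums
over the primes of these intervals on the minor arcs are small, if and only if the Hardy-Littlewood asymptotics for
the `s`-tuples of shifts up to `H(N)` hold on average.
-/

namespace Pool.Agent.Results.MP_2a816b_nt.WeakVariancesIffTuples

open Finset Filter

/-- The number of primes `n < p ≤ n + L` with `p ≡ a` modulo `q`. -/
def primesIn (n L q a : ℕ) : ℕ := ((Ioc n (n + L)).filter (fun p => p.Prime ∧ p ≡ a [MOD q])).card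

/-- The variance of the number of the primes `≡ a` modulo `q` in the intervals of length `γ H` after the `n ≤ N`,
each prime counted with the weight `log N`, divided by `H ^ 2`. -/
noncomputable def variance (N H q a : ℕ) (γ : ℝ) : ℝ :=
  (∑ n ∈ Icc 1 N, (Real.log N / H * primesIn n ⌊γ * H⌋₊ q a - γ / Nat.totient q) ^ 2) / N

/-- The sum of `e(α p)` over the primes `n < p ≤ n + L`. -/
noncomputable def expSum (n L : ℕ) (α : ℝ) : ℂ :=
  ∑ p ∈ (Ioc n (n + L)).filter Nat.Prime, Complex.exp (2 * Real.pi * Complex.I * ((α * p : ℝ) : ℂ))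

/-- The mean square of the exponential sums over the primes of the intervals of length `H` after the `n ≤ N`, each
prime counted with the weight `log N`, divided by `H ^ 2`. -/
noncomputable def meanSquare (N H : ℕ) (α : ℝ) : ℝ :=
  (∑ n ∈ Icc 1 N, (Real.log N / H * ‖expSum n H α‖) ^ 2) / N

/-- The variances of the primes in the reduced residue classes tend to `0`. -/
def SmallVariances (H : ℕ → ℕ) : Prop := ∀ q a : ℕ, 0 < q → a.Coprime q → ∀ γ : ℝ, 0 < γ → γ ≤ 1 →
  Tendsto (fun N : ℕ => variance N (H N) q a γ) atTop (nhds 0)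

/-- For every `η > 0` there is `K` such that for all large `N` the mean square of the exponential sums is at most
`η` for every real `α` with `|α - a / q| > K / H(N)` for all fractions `a / q` with `q ≤ K`. -/
def SmallOnMinorArcs (H : ℕ → ℕ) : Prop := ∀ η : ℝ, 0 < η → ∃ K : ℕ, ∀ᶠ N : ℕ in atTop, ∀ α : ℝ,
  (∀ q : ℕ, 0 < q → q ≤ K → ∀ a : ℤ, (K : ℝ) / H N < |α - a / q|) → meanSquare N (H N) α ≤ η

/-- `π(N; a 1, ..., a r)`, the number of `1 ≤ n ≤ N` such that all `n + a i` are prime. -/
def primeTuples {r : ℕ} (a : Fin r → ℕ) (N : ℕ) : ℕ := ((Icc 1 N).filter (fun n => ∀ i, (n + a i).Prime)).card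

/-- The number of residue classes modulo `p` occupied by the `a i`. -/
def nu {r : ℕ} (a : Fin r → ℕ) (p : ℕ) : ℕ := (univ.image (fun i => a i % p)).card

/-- The singular series `𝔖(a 1, ..., a r)`, a product over all primes. -/
noncomputable def singularSeries {r : ℕ} (a : Fin r → ℕ) : ℝ :=
  ∏' p : Nat.Primes, (1 - (nu a p : ℝ) / p) / (1 - 1 / (p : ℝ)) ^ r

/-- The mean error of the Hardy-Littlewood asymptotics for the `r`-tuples of distinct shifts in `[1, H]`. -/
noncomputable def meanError (r N H : ℕ) : ℝ :=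
  (∑ a ∈ (Fintype.piFinset (fun _ : Fin r => Icc 1 H)).filter (fun a => Function.Injective a),
    |Real.log N ^ r / N * primeTuples a N - singularSeries a|) / (H : ℝ) ^ r

lemma singularSeries_eq {r : ℕ} (a : Fin r → ℕ) :
    Pool.Agent.H386R2.HL.singularSeries a = singularSeries a := by
  unfold Pool.Agent.H386R2.HL.singularSeries singularSeries
  congr 1
  ext p
  unfold Pool.Agent.H386R2.HL.localFactor
  rw [inv_pow, inv_mul_eq_div]
  rfl

lemma meanError_eq (r N H : ℕ) : Pool.Agent.NH16.EE r N H = meanError r N H := by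
  unfold Pool.Agent.NH16.EE meanError Pool.Agent.NH16.Fr primeTuples
  simp only [singularSeries_eq]

lemma expSum_eq (n L : ℕ) (α : ℝ) : Pool.Agent.NH16.PS n L α = expSum n L α := by
  unfold Pool.Agent.NH16.PS expSum
  apply sum_congr rfl
  intro p _
  rw [Pool.Agent.Helper602.MK.N_J5b.ee_eq]
  congr 1
  push_cast
  ring

lemma major_iff (H : ℕ → ℕ) : Pool.Agent.NH16.MajorV H ↔ SmallVariances H := Iff.rfl

lemma minor_iff (H : ℕ → ℕ) : Pool.Agent.NH16.MinorV H ↔ SmallOnMinorArcs H := by
  unfold Pool.Agent.NH16.MinorV SmallOnMinorArcs Pool.Agent.NH16.minV meanSquare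
  simp only [expSum_eq]

/-- For all `s ≥ 2`, `ε > 0` and every function `H` with `N ^ ε ≤ H(N) ≤ N ^ (1 - ε)` for large `N`: the variances
of the primes of the reduced residue classes in the intervals of length `γ H(N)`, `0 < γ ≤ 1`, and the mean squares
of the exponential sums over the primes of the intervals of length `H(N)` on the minor arcs are small if and only
if the mean error of the Hardy-Littlewood asymptotics for the `s`-tuples of distinct shifts up to `H(N)` tends to
`0`. -/
theorem result (s : ℕ) (hs : 2 ≤ s) (ε : ℝ) (hε : 0 < ε) (H : ℕ → ℕ)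
    (hH : ∀ᶠ N : ℕ in atTop, (N : ℝ) ^ ε ≤ H N ∧ (H N : ℝ) ≤ (N : ℝ) ^ (1 - ε)) :
    (SmallVariances H ∧ SmallOnMinorArcs H) ↔ Tendsto (fun N : ℕ => meanError s N (H N)) atTop (nhds 0) := by
  obtain ⟨k, rfl⟩ := Nat.exists_eq_add_of_le' hs
  have hε' : 0 < min ε (1 / 2) := lt_min hε (by norm_num)
  have hH' : ∀ᶠ N : ℕ in atTop, (N : ℝ) ^ (min ε (1 / 2)) ≤ H N ∧ (H N : ℝ) ≤ (N : ℝ) ^ (1 - min ε (1 / 2)) := by
    filter_upwards [hH, eventually_ge_atTop 1] with N hN hN1
    have hN1' : (1 : ℝ) ≤ N := by exact_mod_cast hN1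
    exact ⟨(Real.rpow_le_rpow_of_exponent_le hN1' (min_le_left _ _)).trans hN.1,
      hN.2.trans (Real.rpow_le_rpow_of_exponent_le hN1' (by linarith [min_le_left ε (1 / 2)]))⟩
  have hH1 : ∀ᶠ N : ℕ in atTop, (N : ℝ) ^ ε ≤ H N := hH.mono fun N hN => hN.1
  rw [← major_iff, ← minor_iff, ← Pool.Agent.NH16.major_iff_V ε hε H hH1, ← Pool.Agent.NH16.minor_iff_V ε hε H hH1]
  simp only [← meanError_eq]
  constructor
  · rintro ⟨h1, h2⟩
    exact Pool.Agent.NH16.bwd k _ hε' (min_le_right _ _) H hH' h1 h2
  · intro h
    exact ⟨Pool.Agent.NH16.fwd_major k _ hε' (min_le_right _ _) H hH' h,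
      Pool.Agent.NH16.fwd_minor k _ hε' (min_le_right _ _) H hH' h⟩

end Pool.Agent.Results.MP_2a816b_nt.WeakVariancesIffTuples
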